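import Mathlib

/-!
# Inversion-minimal matrices of shape `(8, 8, 1, 1)` are not Hankel

The matrix with the rows `(0,3,0,1)`, `(3,0,2,0)`, `(0,2,0,3)`, `(1,0,3,0)` has the RSK shape
`(8,8,1,1)` and the inversion number `43`, while all Hankel matrices of this shape have an inversion
number of at least `44` (in fact `45`). So no minimal matrix of this shape is Hankel.
-/

set_option autoImplicit false

namespace Pool.Agent.Results.MP_5baea4_co.NotHankel

/-- Row insertion of `x` into a row: `x` replaces the first entry which is larger than `x`, and this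
entry is bumped; if there is no such entry then `x` is appended. The result is the new row together
with the bumped entry, if any. -/
def rowInsert (x : ℕ) : List ℕ → List ℕ × Option ℕ
  | [] => ([x], none)
  | y :: r =>
    if x < y then (x :: r, some y)
    else match rowInsert x r with
      | (r', o) => (y :: r', o)

/-- Row insertion of `x` into a tableau (the list of its rows): the entry bumped from a row is
inserted into the next row. -/
def insertT : ℕ → List (List ℕ) → List (List ℕ)
  | x, [] => [[x]]
  | x, r :: T =>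
    match rowInsert x r with
    | (r', none) => r' :: T
    | (r', some y) => r' :: insertT y T

/-- The biword of `M`: the pairs `(i, j)`, each one `M i j` times, in the lexicographic order. -/
def biword {n : ℕ} (M : Matrix (Fin n) (Fin n) ℕ) : List (Fin n × Fin n) :=
  (List.finRange n).flatMap fun i => (List.finRange n).flatMap fun j => List.replicate (M i j) (i, j)

/-- The insertion tableau of `M`: the bottom entries of the biword are inserted one after the
other. -/
def tableau {n : ℕ} (M : Matrix (Fin n) (Fin n) ℕ) : List (List ℕ) :=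
  (biword M).foldl (fun T p => insertT p.2.1 T) []

/-- The RSK shape of `M`: the lengths of the rows of the insertion tableau (the recording tableau has
the same shape). -/
def shape {n : ℕ} (M : Matrix (Fin n) (Fin n) ℕ) : List ℕ := (tableau M).map List.length

/-- The inversion number: the sum of `M i j * M k l` over `i < k`, `j > l`. -/
def inv {n : ℕ} (M : Matrix (Fin n) (Fin n) ℕ) : ℕ :=
  ∑ i, ∑ k, ∑ j, ∑ l, if i < k ∧ l < j then M i j * M k l else 0

/-- `M` is a minimal matrix of shape `lam`. -/
def IsMinimal {n : ℕ} (lam : List ℕ) (M : Matrix (Fin n) (Fin n) ℕ) : Prop :=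
  shape M = lam ∧ ∀ N : Matrix (Fin n) (Fin n) ℕ, shape N = lam → inv M ≤ inv N

/-- `M` is Hankel: the entry in the place `(i, j)` depends on `i + j` only. -/
def IsHankel {n : ℕ} (M : Matrix (Fin n) (Fin n) ℕ) : Prop :=
  ∃ s : ℕ → ℕ, ∀ i j : Fin n, M i j = s (i.1 + j.1)

/-! ### The size of the tableau -/

theorem rowInsert_len (x : ℕ) : ∀ r : List ℕ, (rowInsert x r).1.length =
    r.length + (if (rowInsert x r).2 = none then 1 else 0)
  | [] => by simp [rowInsert]
  | y :: r => by
    unfold rowInsert
    split_ifs with h h2 h3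
    · simp at h2
    · simp
    · have := rowInsert_len x r
      simp only at h3 ⊢
      rw [List.length_cons, this, if_pos h3, List.length_cons]
    · have := rowInsert_len x r
      simp only at h3 ⊢
      rw [List.length_cons, this, if_neg h3, List.length_cons]

theorem insertT_sum : ∀ (T : List (List ℕ)) (x : ℕ),
    ((insertT x T).map List.length).sum = (T.map List.length).sum + 1
  | [], x => by simp [insertT]
  | r :: T, x => by
    have h1 := rowInsert_len x r
    unfold insertT
    rcases h : rowInsert x r with ⟨r', o⟩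
    rw [h] at h1
    rcases o with _ | y
    · simp only [if_true] at h1
      simp only [List.map_cons, List.sum_cons, h1]
      omega
    · have h2 := insertT_sum T y
      simp only [reduceCtorEq, if_false] at h1
      simp only [List.map_cons, List.sum_cons, h1, h2]
      omega

theorem foldl_sum {α : Type} (f : α → ℕ) : ∀ (w : List α) (T : List (List ℕ)),
    ((w.foldl (fun T p => insertT (f p) T) T).map List.length).sum =
      (T.map List.length).sum + w.length
  | [], T => by simp
  | a :: w, T => by
    rw [List.foldl_cons, foldl_sum f w, insertT_sum, List.length_cons]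
    omega

theorem shape_sum {n : ℕ} (M : Matrix (Fin n) (Fin n) ℕ) : (shape M).sum = (biword M).length := by
  unfold shape tableau
  rw [foldl_sum]
  simp

/-! ### The Hankel matrices of order four -/

/-- The Hankel matrix of order four with the entries `a, b, c, d, e, f, g` on the antidiagonals. -/
def hk (a b c d e f g : ℕ) : Matrix (Fin 4) (Fin 4) ℕ :=
  !![a, b, c, d; b, c, d, e; c, d, e, f; d, e, f, g]

/-- The bottom word of the matrix `hk`. -/
def wd (a b c d e f g : ℕ) : List ℕ :=
  List.replicate a 0 ++ (List.replicate b 1 ++ (List.replicate c 2 ++ (List.replicate d 3 ++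
  (List.replicate b 0 ++ (List.replicate c 1 ++ (List.replicate d 2 ++ (List.replicate e 3 ++
  (List.replicate c 0 ++ (List.replicate d 1 ++ (List.replicate e 2 ++ (List.replicate f 3 ++
  (List.replicate d 0 ++ (List.replicate e 1 ++ (List.replicate f 2 ++ List.replicate g 3
  ))))))))))))))

/-- The inversion number of the matrix `hk`. -/
def iv (_a b c d e f _g : ℕ) : ℕ :=
  b * (b + c + d) + c * (b + c + c + d + d + e) + d * (b + c + d + c + d + e + d + e + f) +
  c * (c + d) + d * (c + d + d + e) + e * (c + d + e + d + e + f) +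
  d * d + e * (d + e) + f * (d + e + f)

theorem biword_hk (a b c d e f g : ℕ) : (biword (hk a b c d e f g)).map (fun p => p.2.1) =
    wd a b c d e f g := by
  simp [biword, hk, wd, List.finRange, List.ofFn, Fin.foldr, Fin.foldr.loop, List.flatMap]

theorem inv_hk (a b c d e f g : ℕ) : inv (hk a b c d e f g) = iv a b c d e f g := by
  simp [inv, hk, iv, Fin.sum_univ_four]
  ring

/-- The finite check for one matrix. -/
def tst (a b c d e f g : ℕ) : Bool :=
  Nat.ble 44 (iv a b c d e f g) ||
    !(((wd a b c d e f g).foldl (fun T x => insertT x T) []).map List.length == [8, 8, 1, 1])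

/-- The finite check. -/
def chk : Bool :=
  (List.range 5).all fun d => (List.range 7).all fun c =>
    Nat.blt 18 (4 * d + 3 * c) || (List.range 7).all fun e =>
    Nat.blt 18 (4 * d + 3 * c + 3 * e) || (List.range 10).all fun b =>
    Nat.blt 18 (4 * d + 3 * c + 3 * e + 2 * b) || (List.range 10).all fun f =>
    Nat.blt 18 (4 * d + 3 * c + 3 * e + 2 * b + 2 * f) || (List.range 19).all fun a =>
    Nat.blt 18 (4 * d + 3 * c + 3 * e + 2 * b + 2 * f + a) ||
      tst a b c d e f (18 - (4 * d + 3 * c + 3 * e + 2 * b + 2 * f + a))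

theorem chk_true : chk = true := by decide +kernel

theorem shape_hk (a b c d e f g : ℕ) : shape (hk a b c d e f g) =
    ((wd a b c d e f g).foldl (fun T x => insertT x T) []).map List.length := by
  rw [shape, tableau, ← biword_hk, List.foldl_map]

theorem sum_hk (a b c d e f g : ℕ) (h : shape (hk a b c d e f g) = [8, 8, 1, 1]) :
    a + 2 * b + 3 * c + 4 * d + 3 * e + 2 * f + g = 18 := by
  have h1 := shape_sum (hk a b c d e f g)
  have h2 := congrArg List.length (biword_hk a b c d e f g)
  rw [List.length_map] at h2
  rw [h2, h] at h1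
  simp only [wd, List.length_append, List.length_replicate, List.sum_cons, List.sum_nil] at h1
  omega

theorem hankel_inv (M : Matrix (Fin 4) (Fin 4) ℕ) (h : IsHankel M) (hs : shape M = [8, 8, 1, 1]) :
    44 ≤ inv M := by
  obtain ⟨s, hs'⟩ := h
  have hM : M = hk (s 0) (s 1) (s 2) (s 3) (s 4) (s 5) (s 6) := by
    ext i j
    rw [hs']
    fin_cases i <;> fin_cases j <;> rfl
  rw [hM] at hs ⊢
  have h1 := sum_hk _ _ _ _ _ _ _ hs
  rw [shape_hk] at hs
  rw [inv_hk]
  have hc := chk_true
  simp only [chk, List.all_eq_true, List.mem_range, Bool.or_eq_true, Nat.blt_eq] at hc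
  rcases hc (s 3) (by omega) (s 2) (by omega) with h2 | h2
  · omega
  rcases h2 (s 4) (by omega) with h2 | h2
  · omega
  rcases h2 (s 1) (by omega) with h2 | h2
  · omega
  rcases h2 (s 5) (by omega) with h2 | h2
  · omega
  rcases h2 (s 0) (by omega) with h2 | h2
  · omega
  have h6 : 18 - (4 * s 3 + 3 * s 2 + 3 * s 4 + 2 * s 1 + 2 * s 5 + s 0) = s 6 := by omega
  rw [h6, tst, Bool.or_eq_true] at h2
  rcases h2 with h2 | h2
  · exact Nat.le_of_ble_eq_true h2
  · rw [hs] at h2
    exact absurd h2 (by decide)

/-- The matrix with the inversion number `43`. -/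
def N₀ : Matrix (Fin 4) (Fin 4) ℕ := !![0, 3, 0, 1; 3, 0, 2, 0; 0, 2, 0, 3; 1, 0, 3, 0]

theorem shape_N₀ : shape N₀ = [8, 8, 1, 1] := by decide +kernel

theorem inv_N₀ : inv N₀ = 43 := by decide +kernel

theorem not_hankel (M : Matrix (Fin 4) (Fin 4) ℕ) (h : IsMinimal [8, 8, 1, 1] M) : ¬ IsHankel M := by
  intro hH
  have h1 := hankel_inv M hH h.1
  have h2 := h.2 N₀ shape_N₀
  rw [inv_N₀] at h2
  omega

theorem exists_minimal : ∃ M : Matrix (Fin 4) (Fin 4) ℕ, IsMinimal [8, 8, 1, 1] M := by
  classical
  have hex : ∃ k, ∃ M : Matrix (Fin 4) (Fin 4) ℕ, shape M = [8, 8, 1, 1] ∧ inv M = k :=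
    ⟨43, N₀, shape_N₀, inv_N₀⟩
  obtain ⟨M, hM, hk⟩ := Nat.find_spec hex
  exact ⟨M, hM, fun N hN => hk ▸ Nat.find_min' hex ⟨N, hN, rfl⟩⟩

/-- No inversion-minimal matrix of the shape `(8, 8, 1, 1)` is Hankel, and there are such matrices; so
the assertion that all minimal matrices of all shapes with `n` parts are symmetric and Hankel
fails. -/
theorem result :
    ((∃ M : Matrix (Fin 4) (Fin 4) ℕ, IsMinimal [8, 8, 1, 1] M) ∧
      ∀ M : Matrix (Fin 4) (Fin 4) ℕ, IsMinimal [8, 8, 1, 1] M → ¬ IsHankel M) ∧
    ¬ ∀ (n : ℕ) (lam : List ℕ), lam.length = n → lam.Pairwise (· ≥ ·) → (∀ x ∈ lam, 0 < x) →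
      ∀ M : Matrix (Fin n) (Fin n) ℕ, IsMinimal lam M → M.IsSymm ∧ IsHankel M := by
  refine ⟨⟨exists_minimal, not_hankel⟩, fun h => ?_⟩
  obtain ⟨M, hM⟩ := exists_minimal
  exact not_hankel M hM (h 4 [8, 8, 1, 1] rfl (by decide) (by decide) M hM).2

end Pool.Agent.Results.MP_5baea4_co.NotHankel
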